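import Pool.Agent.MP_9e8696_an.H99.Spec
import Pool.Agent.MP_9e8696_an.H12.Tool
import Pool.Agent.MP_9e8696_an.H91.RowAbs

/-!
From the toolbox and the abstract one-label inequality to the local inequality on the cube.
-/

namespace Pool.Agent.MP_9e8696_an.H2

open Finset H68 H82 H99

section
variable {ι : Type} [Fintype ι]

theorem qf_comb (A B : ι → ι → ℝ) (s t : ℝ) (u : ι → ℝ) :
    qf (fun i j => s * A i j + t * B i j) u = s * qf A u + t * qf B u := by
  simp only [qf, mul_sum, ← sum_add_distrib]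
  exact sum_congr rfl fun i _ => sum_congr rfl fun j _ => by ring

theorem lf_sub (b c : ι → ℝ) (x : ι → Bool) : lf b x - lf c x = lf (fun i => b i - c i) x := by
  simp only [lf, ← sum_sub_distrib]
  exact sum_congr rfl fun i _ => by ring

variable [DecidableEq ι]

theorem qf_unit (A : ι → ι → ℝ) (i : ι) : qf A (fun k => if k = i then 1 else 0) = A i i := by
  simp [qf]

theorem diag_bd {A : ι → ι → ℝ} {d : ℝ} (h0 : ∀ u, 0 ≤ qf A u)
    (h1 : ∀ u, qf A u ≤ d * ∑ i, u i ^ 2) (i : ι) : 0 ≤ A i i ∧ A i i ≤ d := by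
  have a := h0 fun k => if k = i then 1 else 0
  have b := h1 fun k => if k = i then 1 else 0
  rw [qf_unit] at a b
  exact ⟨a, by simpa using b⟩

theorem diag_sum {A : ι → ι → ℝ} {d : ℝ} (h0 : ∀ u, 0 ≤ qf A u)
    (h1 : ∀ u, qf A u ≤ d * ∑ i, u i ^ 2) (b : ι → ℝ) :
    0 ≤ ∑ i, b i ^ 2 * A i i ∧ ∑ i, b i ^ 2 * A i i ≤ d * ∑ i, b i ^ 2 := by
  refine ⟨sum_nonneg fun i _ => mul_nonneg (sq_nonneg _) (diag_bd h0 h1 i).1, ?_⟩
  rw [mul_sum]
  exact sum_le_sum fun i _ => by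
    rw [mul_comm d]
    exact mul_le_mul_of_nonneg_left (diag_bd h0 h1 i).2 (sq_nonneg _)

theorem qE_add (Q : ι → ι → ℝ) (F : (ι → Bool) → ℝ) (k : ℝ) :
    qE Q (fun x => F x + k) = qE Q F + k := by
  have hZ : (0 : ℝ) < ∑ x : ι → Bool, Real.exp (qf Q fun i => sg (x i)) :=
    sum_pos (fun _ _ => Real.exp_pos _) univ_nonempty
  simp only [qE, mul_add, sum_add_distrib, ← sum_mul]
  field_simp

theorem tE_eq (A B : ι → ι → ℝ) (s t : ℝ) (F : (ι → Bool) → ℝ) :
    tE (fun x : ι → Bool => Real.exp (s * qf A fun i => sg (x i))) (yq B) t F =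
      qE (fun i j => s * A i j + t * B i j) F := by
  have h : ∀ x : ι → Bool, Real.exp (s * qf A fun i => sg (x i)) * Real.exp (t * yq B x) =
      Real.exp (-(t * ∑ i, B i i)) *
        Real.exp (qf (fun i j => s * A i j + t * B i j) fun i => sg (x i)) := by
    intro x
    rw [← Real.exp_add, ← Real.exp_add, qf_comb, yq]
    congr 1
    ring
  simp only [tE, qE, h, mul_assoc, ← mul_sum]
  exact mul_div_mul_left _ _ (Real.exp_pos _).ne'

theorem gE_eq (A B : ι → ι → ℝ) (e : ℝ) (F : (ι → Bool) → ℝ) :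
    gE e (fun i j => A i j + B i j) F =
      qE (fun i j => 1 / (1 - e) * A i j + 1 / (1 - e) * B i j) F := by
  have h : ∀ x : ι → Bool, gw e (fun i j => A i j + B i j) x =
      Real.exp (qf (fun i j => 1 / (1 - e) * A i j + 1 / (1 - e) * B i j) fun i => sg (x i)) := by
    intro x
    have h1 := qf_comb A B 1 1 fun i => sg (x i)
    simp only [one_mul] at h1
    rw [gw, qf_comb, h1]
    congr 1
    ring
  simp only [gE, qE, h]

end

theorem rowGlue : RowGlue := by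
  rintro ⟨M, d₀, hM, hd₀, hT⟩ hA
  obtain ⟨C, e₀, hC, he₀, he₁, hA⟩ := hA (4 * M) (by linarith)
  refine ⟨C + 12, e₀, min (d₀ / 2) (1 / 24), by linarith, he₀, by positivity, ?_⟩
  intro ι _ _ J₀ J₁ b c δ e s0 s1 p0 p1 hs hb hκ hbc he he' hδ hδ'
  have hδ1 : δ ≤ d₀ / 2 := hδ'.trans (min_le_left _ _)
  have hδ2 : δ ≤ 1 / 24 := hδ'.trans (min_le_right _ _)
  obtain ⟨L, hL⟩ : ∃ L : ℝ, L = 1 / (1 - e) := ⟨_, rfl⟩
  have h1e : 0 < 1 - e := by linarith
  have hL1 : 1 ≤ L := by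
    rw [hL, le_div_iff₀ h1e]
    linarith
  have hL2 : L ≤ 2 := by
    rw [hL, div_le_iff₀ h1e]
    linarith
  have hc0 : 0 ≤ ∑ i, c i ^ 2 := sum_nonneg fun i _ => sq_nonneg _
  have hup : ∀ t, 0 ≤ t → t ≤ L → ∀ u : ι → ℝ,
      qf (fun i j => L * J₀ i j + t * J₁ i j) u ≤ 2 * δ * ∑ i, u i ^ 2 := by
    intro t _ ht u
    have a0 := p0 u
    have a1 := p1 u
    have a2 := hs u
    rw [qf_comb]
    have a3 : t * qf J₁ u ≤ 2 * qf J₁ u := mul_le_mul_of_nonneg_right (ht.trans hL2) a1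
    have a4 : L * qf J₀ u ≤ 2 * qf J₀ u := mul_le_mul_of_nonneg_right hL2 a0
    linarith
  have hlo : ∀ t, 0 ≤ t → ∀ u : ι → ℝ, 0 ≤ qf (fun i j => L * J₀ i j + t * J₁ i j) u := by
    intro t ht u
    rw [qf_comb]
    exact add_nonneg (mul_nonneg (by linarith) (p0 u)) (mul_nonneg ht (p1 u))
  have tool := fun t (h0 : 0 ≤ t) (h1 : t ≤ L) =>
    hT ι (fun i j => L * J₀ i j + t * J₁ i j) (2 * δ) (fun i j => by rw [s0 i j, s1 i j])
      (hlo t h0) (hup t h0 h1) (by linarith) (by linarith)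
  have hbt := diag_sum p0 (d := δ) (fun u => by linarith [hs u, p1 u]) b
  rw [hb] at hbt
  have hG := p0 b
  have hoff : 0 ≤ off J₁ := sum_nonneg fun i _ => sum_nonneg fun j _ => by
    split_ifs
    · exact le_rfl
    · exact sq_nonneg _
  have key := hA (ι → Bool) (fun x => Real.exp (L * qf J₀ fun i => sg (x i))) (yq J₁) (lf b) (lf c)
    (1 - ∑ i, c i ^ 2) (off J₁) (L * (qf J₀ b - 3 * ∑ i, b i ^ 2 * J₀ i i)) e
    (fun _ => Real.exp_pos _) hκ (by linarith) hoff (by nlinarith [hbt.1, hbt.2]) he he'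
    (fun t h0 h1 => by
      obtain ⟨t1, t2, t3, t4⟩ := tool t h0 (hL ▸ h1)
      obtain ⟨t5, t6, t7⟩ := t4 J₁ s1
      have hn : 0 ≤ ∑ i, (b i - c i) ^ 2 := sum_nonneg fun i _ => sq_nonneg _
      have hv : 0 ≤ qE (fun i j => L * J₀ i j + t * J₁ i j)
          (fun x => (yq J₁ x - qE (fun i j => L * J₀ i j + t * J₁ i j) (yq J₁)) ^ 2) := by
        nlinarith
      simp only [tE_eq, lf_sub, qE_add]
      refine ⟨by simpa [hb] using t1 b, by linarith [t1 c], (t2 c).trans ?_,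
        (t1 _).trans (by nlinarith), (t2 _).trans ?_, ?_, by nlinarith, by nlinarith,
        by nlinarith [sq_nonneg (off J₁)]⟩
      · have : (∑ i, c i ^ 2) ^ 2 ≤ 1 := by nlinarith
        nlinarith
      · have : (∑ i, (b i - c i) ^ 2) ^ 2 ≤ (2 * (1 - ∑ i, c i ^ 2)) ^ 2 :=
          pow_le_pow_left₀ hn hbc 2
        nlinarith
      · have a1 := t3 c
        have a2 := (diag_sum (hlo t h0) (hup t h0 (hL ▸ h1)) c).2
        have a3 := hlo t h0 c
        nlinarith)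
    (by
      have a1 := (tool 0 le_rfl (by linarith)).2.2.1 b
      rw [tE_eq]
      refine le_trans (le_of_eq ?_) a1
      rw [qf_comb, hb]
      simp only [zero_mul, add_zero]
      have : ∑ i, b i ^ 2 * (L * J₀ i i) = L * ∑ i, b i ^ 2 * J₀ i i := by
        rw [mul_sum]
        exact sum_congr rfl fun i _ => by ring
      rw [this]
      ring)
  simp only [tE_eq] at key
  simp only [gE_eq]
  rw [hL] at key
  refine le_trans (Real.exp_le_exp.2 ?_) key
  rw [← hL]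
  have hm : qf J₀ b / 4 - 12 * ∑ i, b i ^ 2 * J₀ i i ≤
      min (L * (qf J₀ b - 3 * ∑ i, b i ^ 2 * J₀ i i) / 4)
        (2 * (L * (qf J₀ b - 3 * ∑ i, b i ^ 2 * J₀ i i))) :=
    le_min (by nlinarith [hbt.1]) (by nlinarith [hbt.1])
  have h1 : 0 ≤ C * ∑ i, b i ^ 2 * J₀ i i := mul_nonneg hC hbt.1
  have h2 : 0 ≤ e * (1 - ∑ i, c i ^ 2) := mul_nonneg he.le hκ
  have h3 : ew c = fun x => lf c x ^ 2 + (1 - ∑ i, c i ^ 2) := rfl
  rw [h3]
  nlinarith

/-- The local inequality holds with absolute constants. -/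
theorem loc : RowLoc := rowGlue H12.rowTool H91.rowAbs

end Pool.Agent.MP_9e8696_an.H2
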